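import Pool.Agent.BTL.Stmts

/-!
Squad BTL, module `intgood` (group A): integral of the number of good quadruples of a window.
-/

set_option autoImplicit false

open MeasureTheory Filter Topology
open scoped ENNReal

namespace Pool.Agent.BTL.H37

/-- sum of the four norms -/
noncomputable def N4 (q : Fin 4 → ℤ × ℤ) : ℝ := ∑ l, nz (q l)

theorem nz_le_N4 (q : Fin 4 → ℤ × ℤ) (i : Fin 4) : nz (q i) ≤ N4 q :=
  Finset.single_le_sum (f := fun l => nz (q l)) (fun _ _ => nz_nonneg _) (Finset.mem_univ i)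

theorem N4_ge_one {K D : ℝ} {q : Fin 4 → ℤ × ℤ} (hq : goodQ K D q) : 1 ≤ N4 q := by
  by_contra h
  have h0 : ∀ i, q i = 0 := by
    intro i
    by_contra hi
    exact h (le_trans (one_le_nz hi) (nz_le_N4 q i))
  obtain ⟨n, hn⟩ := exists_nat_gt D
  have h1 := hq.2 n (fun i j => by simp [dt, h0])
  linarith

theorem kr_good (hkr : S_kr_lower) {K D : ℝ} (hK : 1 ≤ K) {q : Fin 4 → ℤ × ℤ}
    (hq : goodQ K D q) : N4 q ^ 2 / K ^ 3 ≤ kr (q 0) (q 1) (q 2) := by
  have h1 := hkr (q 0) (q 1) (q 2)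
  have hN := N4_ge_one hq
  have hN0 : 0 < N4 q := by linarith
  have hK0 : 0 < K := by linarith
  have a : N4 q / K ≤ |(dt (q 0) (q 1) : ℝ)| := by
    rw [div_le_iff₀ hK0]; exact hq.1 0 1 (by decide)
  have b : N4 q / K ≤ |(dt (q 0) (q 2) : ℝ)| := by
    rw [div_le_iff₀ hK0]; exact hq.1 0 2 (by decide)
  have c : N4 q / K ≤ |(dt (q 1) (q 2) : ℝ)| := by
    rw [div_le_iff₀ hK0]; exact hq.1 1 2 (by decide)
  have hp : 0 ≤ N4 q / K := by positivity
  have h2 : (N4 q / K) * (N4 q / K) * (N4 q / K) ≤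
      |(dt (q 0) (q 1) : ℝ) * (dt (q 0) (q 2) : ℝ) * (dt (q 1) (q 2) : ℝ)| := by
    rw [abs_mul, abs_mul]
    exact mul_le_mul (mul_le_mul a b hp (abs_nonneg _)) c hp (by positivity)
  have hkr0 : 0 ≤ kr (q 0) (q 1) (q 2) := norm_nonneg _
  have h3 : (N4 q / K) * (N4 q / K) * (N4 q / K) ≤ kr (q 0) (q 1) (q 2) * N4 q :=
    le_trans h2 (le_trans h1 (mul_le_mul_of_nonneg_left (nz_le_N4 q 0) hkr0))
  have h4 : (N4 q ^ 2 / K ^ 3) * N4 q ≤ kr (q 0) (q 1) (q 2) * N4 q := by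
    calc (N4 q ^ 2 / K ^ 3) * N4 q = (N4 q / K) * (N4 q / K) * (N4 q / K) := by
          field_simp
      _ ≤ _ := h3
  exact le_of_mul_le_mul_right h4 hN0

/-- window condition for all four points -/
def inW (A : ℝ × ℝ × ℝ) (s : ℝ) (q : Fin 4 → ℤ × ℤ) : Prop :=
  ∀ i, s ≤ qz A (q i) ∧ qz A (q i) < s + 1

open Classical in
/-- indicator of the window condition -/
noncomputable def iW (q : Fin 4 → ℤ × ℤ) (p : (ℝ × ℝ × ℝ) × ℝ) : ℝ≥0∞ :=
  if inW p.1 p.2 q then 1 else 0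

theorem continuous_qz (x : ℤ × ℤ) : Continuous fun A : ℝ × ℝ × ℝ => qz A x := by
  unfold qz qf rc; fun_prop

theorem measurable_iW (q : Fin 4 → ℤ × ℤ) : Measurable (iW q) := by
  classical
  unfold iW
  refine Measurable.ite ?_ measurable_const measurable_const
  have : {p : (ℝ × ℝ × ℝ) × ℝ | inW p.1 p.2 q} =
      ⋂ i : Fin 4, {p : (ℝ × ℝ × ℝ) × ℝ | p.2 ≤ qz p.1 (q i)} ∩ {p | qz p.1 (q i) < p.2 + 1} := by
    ext p; simp [inW]
  rw [this]
  refine MeasurableSet.iInter fun i => ?_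
  have hc : Continuous fun p : (ℝ × ℝ × ℝ) × ℝ => qz p.1 (q i) :=
    (continuous_qz (q i)).comp continuous_fst
  exact (isClosed_le continuous_snd hc).measurableSet.inter
    (isOpen_lt hc (continuous_snd.add continuous_const)).measurableSet

theorem iW_inner_le (q : Fin 4 → ℤ × ℤ) (A : ℝ × ℝ × ℝ) : ∫⁻ s, iW q (A, s) ≤ 1 := by
  have h : ∀ s, iW q (A, s) ≤ (Set.Icc (qz A (q 0) - 1) (qz A (q 0))).indicator 1 s := by
    intro s
    unfold iW
    split_ifs with h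
    · have h0 := h 0
      rw [Set.indicator_of_mem]
      · simp
      · exact ⟨by have := h0.2; simp only at this ⊢; linarith, h0.1⟩
    · exact zero_le
  calc ∫⁻ s, iW q (A, s) ≤ ∫⁻ s, (Set.Icc (qz A (q 0) - 1) (qz A (q 0))).indicator 1 s :=
        lintegral_mono h
    _ ≤ volume (Set.Icc (qz A (q 0) - 1) (qz A (q 0))) := lintegral_indicator_one_le _
    _ = 1 := by rw [Real.volume_Icc]; simp

theorem iW_inner_zero (q : Fin 4 → ℤ × ℤ) (A : ℝ × ℝ × ℝ) (h : ¬ ∃ s, inW A s q) :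
    ∫⁻ s, iW q (A, s) = 0 := by
  have h0 : ∀ s, iW q (A, s) = 0 := by
    intro s
    unfold iW
    rw [if_neg]
    exact fun h1 => h ⟨s, h1⟩
  simp [h0]

theorem int_q (h2 : S_slab2) (hkr : S_kr_lower) {M K D : ℝ} (hM : 1 ≤ M) (hK : 1 ≤ K)
    {q : Fin 4 → ℤ × ℤ} (hq : goodQ K D q) :
    ∫⁻ A in KM M, ∫⁻ s, iW q (A, s) ≤ ENNReal.ofReal (8 * M * K ^ 3 / N4 q ^ 2) := by
  have hk := kr_good hkr hK hq
  have hN := N4_ge_one hq
  have hN0 : 0 < N4 q := by linarith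
  have hK0 : 0 < K := by linarith
  have hM0 : 0 < M := by linarith
  have hpos : 0 < N4 q ^ 2 / K ^ 3 := by positivity
  set w1 := vv (q 0) - vv (q 1) with hw1
  set w2 := vv (q 1) - vv (q 2) with hw2
  have hn : kr (q 0) (q 1) (q 2) = ‖cr w1 w2‖ := rfl
  rw [hn] at hk
  have hcr : cr w1 w2 ≠ 0 := by
    intro h0
    rw [h0, norm_zero] at hk
    linarith
  have hs := h2 M hM0 w1 w2 hcr 0 0 1 1 zero_le_one zero_le_one
  set S : Set (ℝ × ℝ × ℝ) := {A : ℝ × ℝ × ℝ | ‖A‖ ≤ M ∧ |dot A w1 - 0| ≤ 1 ∧ |dot A w2 - 0| ≤ 1}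
    with hS
  calc ∫⁻ A in KM M, ∫⁻ s, iW q (A, s) ≤ ∫⁻ A in KM M, S.indicator 1 A := by
        refine setLIntegral_mono' (measurableSet_KM M) ?_
        intro A hA
        by_cases h : ∃ s, inW A s q
        · obtain ⟨s, hs⟩ := h
          have hmem : A ∈ S := by
            refine ⟨KM_abs_le hM hA, ?_, ?_⟩
            · rw [hw1, dot_sub, ← qz_eq_dot, ← qz_eq_dot, abs_le]
              have a0 := hs 0
              have a1 := hs 1
              constructor <;> linarith [a0.1, a0.2, a1.1, a1.2]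
            · rw [hw2, dot_sub, ← qz_eq_dot, ← qz_eq_dot, abs_le]
              have a0 := hs 1
              have a1 := hs 2
              constructor <;> linarith [a0.1, a0.2, a1.1, a1.2]
          rw [Set.indicator_of_mem hmem]
          exact iW_inner_le q A
        · rw [iW_inner_zero q A h]
          exact zero_le
    _ ≤ ∫⁻ A, S.indicator 1 A := setLIntegral_le_lintegral _ _
    _ ≤ volume S := lintegral_indicator_one_le _
    _ ≤ ENNReal.ofReal (8 * M * 1 * 1 / ‖cr w1 w2‖) := hs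
    _ ≤ ENNReal.ofReal (8 * M * K ^ 3 / N4 q ^ 2) := by
        apply ENNReal.ofReal_le_ofReal
        have h5 : 8 * M * K ^ 3 / N4 q ^ 2 = 8 * M / (N4 q ^ 2 / K ^ 3) := by
          field_simp
        rw [h5, mul_one, mul_one]
        exact div_le_div_of_nonneg_left (by positivity) hpos hk

theorem int_q_zero {M : ℝ} {q : Fin 4 → ℤ × ℤ}
    (h : ¬ ∃ A ∈ KM M, ∃ s : ℝ, ∀ i, |qz A (q i) - s| ≤ 1) :
    ∫⁻ A in KM M, ∫⁻ s, iW q (A, s) = 0 := by
  refine le_antisymm ?_ zero_le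
  calc ∫⁻ A in KM M, ∫⁻ s, iW q (A, s) ≤ ∫⁻ A in KM M, 0 := by
        refine setLIntegral_mono' (measurableSet_KM M) ?_
        intro A hA
        rw [iW_inner_zero]
        rintro ⟨s, hs⟩
        refine h ⟨A, hA, s, fun i => ?_⟩
        have := hs i
        rw [abs_le]
        constructor <;> linarith [this.1, this.2]
    _ = 0 := by simp

open Classical in
/-- the good quadruples which can occur -/
noncomputable def PG (M T K D : ℝ) : Finset (Fin 4 → ℤ × ℤ) :=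
  ((Fintype.piFinset fun _ : Fin 4 => ball T).filter (goodQ K D)).filter
    (fun q => ∃ A ∈ KM M, ∃ s : ℝ, ∀ i, |qz A (q i) - s| ≤ 1)

theorem int_le_sum (h2 : S_slab2) (hkr : S_kr_lower) {M T K D : ℝ} (hM : 1 ≤ M) (hK : 1 ≤ K) :
    (by
      classical
      exact ∫⁻ A in KM M, ∫⁻ s, ENNReal.ofReal
        (((Fintype.piFinset fun _ : Fin 4 => win T 1 A s).filter (goodQ K D)).card : ℝ)) ≤
      ENNReal.ofReal (∑ q ∈ PG M T K D, 8 * M * K ^ 3 / N4 q ^ 2) := by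
  classical
  set P := ((Fintype.piFinset fun _ : Fin 4 => ball T).filter (goodQ K D)) with hP
  have e1 : ∀ (A : ℝ × ℝ × ℝ) (s : ℝ), ENNReal.ofReal
      (((Fintype.piFinset fun _ : Fin 4 => win T 1 A s).filter (goodQ K D)).card : ℝ) =
        ∑ q ∈ P, iW q (A, s) := by
    intro A s
    have e2 : (Fintype.piFinset fun _ : Fin 4 => win T 1 A s).filter (goodQ K D) =
        P.filter (fun q => inW A s q) := by
      ext q
      simp only [hP, Finset.mem_filter, Fintype.mem_piFinset, mem_win, mem_ball, inW]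
      constructor
      · rintro ⟨h1, h2⟩
        exact ⟨⟨fun i => (h1 i).1, h2⟩, fun i => (h1 i).2⟩
      · rintro ⟨⟨h1, h2⟩, h3⟩
        exact ⟨fun i => ⟨h1 i, h3 i⟩, h2⟩
    rw [e2, Finset.card_filter]
    simp only [iW]
    rw [ENNReal.ofReal_natCast]
    push_cast
    rfl
  have e3 : ∫⁻ A in KM M, ∫⁻ s, ENNReal.ofReal
      (((Fintype.piFinset fun _ : Fin 4 => win T 1 A s).filter (goodQ K D)).card : ℝ) =
        ∑ q ∈ P, ∫⁻ A in KM M, ∫⁻ s, iW q (A, s) := by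
    simp_rw [e1]
    have hm : ∀ q ∈ P, Measurable fun A : ℝ × ℝ × ℝ => ∫⁻ s, iW q (A, s) := fun q _ =>
      (measurable_iW q).lintegral_prod_right'
    rw [← lintegral_finsetSum P hm]
    refine lintegral_congr fun A => ?_
    rw [lintegral_finsetSum P]
    intro q _
    exact (measurable_iW q).comp measurable_prodMk_left
  have e4 : ∑ q ∈ P, ∫⁻ A in KM M, ∫⁻ s, iW q (A, s) ≤
      ENNReal.ofReal (∑ q ∈ PG M T K D, 8 * M * K ^ 3 / N4 q ^ 2) := by
    rw [ENNReal.ofReal_sum_of_nonneg]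
    · have e5 : PG M T K D = P.filter (fun q => ∃ A ∈ KM M, ∃ s : ℝ, ∀ i, |qz A (q i) - s| ≤ 1) :=
        rfl
      conv_rhs => rw [e5, Finset.sum_filter]
      apply Finset.sum_le_sum
      intro q hq
      split_ifs with h
      · exact int_q h2 hkr hM hK (Finset.mem_filter.mp hq).2
      · exact (int_q_zero h).le
    · intro q _
      have hK0 : 0 < K := by linarith
      have hM0 : 0 < M := by linarith
      positivity
  refine le_trans (le_of_eq ?_) (le_trans (le_of_eq e3) e4)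
  rfl

theorem QS_finite (M T K D : ℝ) : (QS M T K D).Finite := by
  classical
  refine Set.Finite.subset (Finset.finite_toSet (Fintype.piFinset fun _ : Fin 4 => ball (|T| + 1)))
    ?_
  intro q hq
  simp only [Finset.mem_coe, Fintype.mem_piFinset, mem_ball]
  intro i
  have h := hq.1 i
  have : T ^ 2 = |T| ^ 2 := (sq_abs T).symm
  nlinarith [abs_nonneg T]

theorem level_sum (C1 : ℝ) (hC1 : 1 ≤ C1) {M : ℝ} (hM : 1 ≤ M)
    (hc : ∀ T K D : ℝ, 1 ≤ T → 1 ≤ K → 1 ≤ D → (((QS M T K D).ncard : ℕ) : ℝ) ≤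
      C1 * K ^ 40 * D ^ 2 * T ^ 6)
    {T K D : ℝ} (hT : 1 ≤ T) (hK : 1 ≤ K) (hD : 1 ≤ D) :
    ∑ q ∈ PG M T K D, 8 * M * K ^ 3 / N4 q ^ 2 ≤
      (8 * M * C1 * 4 ^ 40 * 64 * 8) * K ^ 45 * D ^ 2 * T ^ 2 := by
  classical
  have hK0 : 0 < K := by linarith
  have hM0 : 0 < M := by linarith
  have hT0 : 0 < T := by linarith
  -- level function
  have hlev : ∀ q : Fin 4 → ℤ × ℤ, ∃ n : ℕ, 1 ≤ N4 q → (4 : ℝ) ^ n ≤ N4 q ∧ N4 q < 4 ^ (n + 1) := by
    intro q
    by_cases h : 1 ≤ N4 q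
    · obtain ⟨n, hn⟩ := exists_nat_pow_near h (by norm_num : (1 : ℝ) < 4)
      exact ⟨n, fun _ => hn⟩
    · exact ⟨0, fun h1 => absurd h1 h⟩
  choose lev hlev using hlev
  obtain ⟨I, hI1, hI2⟩ := exists_nat_pow_near (by nlinarith : (1 : ℝ) ≤ 4 * T ^ 2)
    (by norm_num : (1 : ℝ) < 4)
  have hmemP : ∀ q ∈ PG M T K D, (∀ i, nz (q i) < T ^ 2) ∧ goodQ K D q ∧
      ∃ A ∈ KM M, ∃ s : ℝ, ∀ i, |qz A (q i) - s| ≤ 1 := by
    intro q hq
    unfold PG at hq
    simp only [Finset.mem_filter, Fintype.mem_piFinset, mem_ball] at hq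
    exact ⟨hq.1.1, hq.1.2, hq.2⟩
  have hmaps : ∀ q ∈ PG M T K D, lev q ∈ Finset.range (I + 1) := by
    intro q hq
    obtain ⟨h1, h2, h3⟩ := hmemP q hq
    have h4 := hlev q (N4_ge_one h2)
    have h5 : N4 q < 4 * T ^ 2 := by
      unfold N4
      rw [Fin.sum_univ_four]
      linarith [h1 0, h1 1, h1 2, h1 3]
    rw [Finset.mem_range]
    have h6 : (4 : ℝ) ^ (lev q) < 4 ^ (I + 1) := by linarith [h4.1]
    exact (pow_lt_pow_iff_right₀ (by norm_num : (1 : ℝ) < 4)).mp h6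
  rw [← Finset.sum_fiberwise_of_maps_to hmaps]
  have hfib : ∀ i ∈ Finset.range (I + 1),
      ∑ q ∈ (PG M T K D).filter (fun q => lev q = i), 8 * M * K ^ 3 / N4 q ^ 2 ≤
        (8 * M * C1 * 4 ^ 40 * 64 * K ^ 45 * D ^ 2) * 4 ^ i := by
    intro i _
    have hcard : (((PG M T K D).filter (fun q => lev q = i)).card : ℝ) ≤
        C1 * (4 * K) ^ 40 * D ^ 2 * (2 ^ (i + 1)) ^ 6 := by
      refine le_trans ?_ (hc (2 ^ (i + 1)) (4 * K) D (one_le_pow₀ (by norm_num)) (by linarith) hD)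
      have hsub : (((PG M T K D).filter (fun q => lev q = i) : Finset _) : Set (Fin 4 → ℤ × ℤ)) ⊆
          QS M (2 ^ (i + 1)) (4 * K) D := by
        intro q hq
        rw [Finset.mem_coe, Finset.mem_filter] at hq
        obtain ⟨hq1, hq2⟩ := hq
        obtain ⟨h1, h2, h3⟩ := hmemP q hq1
        have h4 := hlev q (N4_ge_one h2)
        rw [hq2] at h4
        have e : ((2 : ℝ) ^ (i + 1)) ^ 2 = 4 ^ (i + 1) := by
          rw [← pow_mul, mul_comm, pow_mul]; norm_num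
        refine ⟨fun l => ?_, fun a b hab => ?_, h2.2, h3⟩
        · rw [e]; exact le_trans (nz_le_N4 q l) h4.2.le
        · rw [e, div_le_iff₀ (by positivity)]
          have h5 : N4 q ≤ |(dt (q a) (q b) : ℝ)| * K := h2.1 a b hab
          have h6 : (4 : ℝ) ^ (i + 1) = 4 * 4 ^ i := by ring
          rw [h6]
          calc (4 : ℝ) * 4 ^ i ≤ 4 * N4 q := by linarith [h4.1]
            _ ≤ 4 * (|(dt (q a) (q b) : ℝ)| * K) := by linarith
            _ = _ := by ring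
      have := Set.ncard_le_ncard hsub (QS_finite _ _ _ _)
      rw [Set.ncard_coe_finset] at this
      exact_mod_cast this
    have hterm : ∀ q ∈ (PG M T K D).filter (fun q => lev q = i),
        8 * M * K ^ 3 / N4 q ^ 2 ≤ 8 * M * K ^ 3 / (4 ^ i) ^ 2 := by
      intro q hq
      rw [Finset.mem_filter] at hq
      obtain ⟨h1, h2, h3⟩ := hmemP q hq.1
      have h4 := hlev q (N4_ge_one h2)
      rw [hq.2] at h4
      exact div_le_div_of_nonneg_left (by positivity) (by positivity)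
        (pow_le_pow_left₀ (by positivity) h4.1 2)
    calc ∑ q ∈ (PG M T K D).filter (fun q => lev q = i), 8 * M * K ^ 3 / N4 q ^ 2
        ≤ ∑ q ∈ (PG M T K D).filter (fun q => lev q = i), 8 * M * K ^ 3 / (4 ^ i) ^ 2 :=
          Finset.sum_le_sum hterm
      _ = (((PG M T K D).filter (fun q => lev q = i)).card : ℝ) * (8 * M * K ^ 3 / (4 ^ i) ^ 2) := by
          rw [Finset.sum_const, nsmul_eq_mul]
      _ ≤ (C1 * (4 * K) ^ 40 * D ^ 2 * (2 ^ (i + 1)) ^ 6) * (8 * M * K ^ 3 / (4 ^ i) ^ 2) :=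
          mul_le_mul_of_nonneg_right hcard (by positivity)
      _ = (8 * M * C1 * 4 ^ 40 * 64 * K ^ 43 * D ^ 2) * 4 ^ i := by
          have e : ((2 : ℝ) ^ (i + 1)) ^ 6 = 64 * (4 ^ i) ^ 3 := by
            rw [← pow_mul, show (4 : ℝ) = 2 ^ 2 by norm_num, ← pow_mul, ← pow_mul,
              show (64 : ℝ) = 2 ^ 6 by norm_num, ← pow_add]
            congr 1
            ring
          rw [e]
          field_simp
      _ ≤ (8 * M * C1 * 4 ^ 40 * 64 * K ^ 45 * D ^ 2) * 4 ^ i := by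
          have hKK : K ^ 43 ≤ K ^ 45 := pow_le_pow_right₀ hK (by norm_num)
          have : 0 ≤ 8 * M * C1 * 4 ^ 40 * 64 := by positivity
          gcongr
  have hgeo : ∀ n : ℕ, ∑ i ∈ Finset.range (n + 1), (4 : ℝ) ^ i ≤ 2 * 4 ^ n := by
    intro n
    induction n with
    | zero => norm_num
    | succ n ih =>
      rw [Finset.sum_range_succ]
      have : (4 : ℝ) ^ (n + 1) = 4 * 4 ^ n := by ring
      rw [this]
      have h0 : (0 : ℝ) < 4 ^ n := by positivity
      linarith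
  calc ∑ i ∈ Finset.range (I + 1), ∑ q ∈ (PG M T K D).filter (fun q => lev q = i),
        8 * M * K ^ 3 / N4 q ^ 2
      ≤ ∑ i ∈ Finset.range (I + 1), (8 * M * C1 * 4 ^ 40 * 64 * K ^ 45 * D ^ 2) * 4 ^ i :=
        Finset.sum_le_sum hfib
    _ = (8 * M * C1 * 4 ^ 40 * 64 * K ^ 45 * D ^ 2) * ∑ i ∈ Finset.range (I + 1), (4 : ℝ) ^ i := by
        rw [Finset.mul_sum]
    _ ≤ (8 * M * C1 * 4 ^ 40 * 64 * K ^ 45 * D ^ 2) * (8 * T ^ 2) := by
        refine mul_le_mul_of_nonneg_left ?_ (by positivity)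
        linarith [hgeo I]
    _ = _ := by ring

/-- A3 -/
theorem int_goodQ (h2 : S_slab2) (hkr : S_kr_lower) (hqc : S_quad_count) : S_int_goodQ := by
  classical
  intro M hM
  obtain ⟨C1, hC1, hc⟩ := hqc M hM
  refine ⟨8 * M * C1 * 4 ^ 40 * 64 * 8, ?_, ?_⟩
  · have : 1 ≤ M * C1 := by nlinarith
    nlinarith
  intro T K D hT hK hD
  refine le_trans ?_ (ENNReal.ofReal_le_ofReal (level_sum C1 hC1 hM ?_ hT hK hD))
  · exact int_le_sum (T := T) (D := D) h2 hkr hM hK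
  · intro T K D hT hK hD
    exact hc T K D hT hK hD

end Pool.Agent.BTL.H37
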