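import Pool.Agent.BTL.Stmts

/-!
Squad BTL, module `ui` (group A): uniform integrability (a moment of order `3 + κ`).
-/

set_option autoImplicit false

open MeasureTheory Filter Topology
open scoped ENNReal

namespace Pool.Agent.BTL.H37

theorem continuous_qz' (x : ℤ × ℤ) : Continuous fun A : ℝ × ℝ × ℝ => qz A x := by
  unfold qz qf rc; fun_prop

/-- measurability of the cardinality of a finite set depending on a parameter -/
theorem meas_card {α β : Type} [MeasurableSpace α] (B : Finset β) (F : α → Finset β)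
    (hF : ∀ p, F p ⊆ B) (hm : ∀ x ∈ B, MeasurableSet {p | x ∈ F p}) :
    Measurable fun p => ENNReal.ofReal ((F p).card : ℝ) := by
  classical
  have e : (fun p => ENNReal.ofReal ((F p).card : ℝ)) =
      fun p => ∑ x ∈ B, ({p | x ∈ F p}).indicator (fun _ => (1 : ℝ≥0∞)) p := by
    funext p
    have e1 : F p = B.filter (fun x => x ∈ F p) := by
      ext x
      simp only [Finset.mem_filter]
      exact ⟨fun h => ⟨hF p h, h⟩, fun h => h.2⟩
    rw [ENNReal.ofReal_natCast]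
    conv_lhs => rw [e1, Finset.card_filter]
    push_cast
    apply Finset.sum_congr rfl
    intro x _
    simp [Set.indicator]
  rw [e]
  exact Finset.measurable_sum B (fun x hx => measurable_const.indicator (hm x hx))

theorem meas_win (T : ℝ) (x : ℤ × ℤ) :
    MeasurableSet {p : (ℝ × ℝ × ℝ) × ℝ | x ∈ win T 1 p.1 p.2} := by
  have hc : Continuous fun p : (ℝ × ℝ × ℝ) × ℝ => qz p.1 x :=
    (continuous_qz' x).comp continuous_fst
  have e : {p : (ℝ × ℝ × ℝ) × ℝ | x ∈ win T 1 p.1 p.2} =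
      ({p | nz x < T ^ 2} ∩ {p | p.2 ≤ qz p.1 x}) ∩ {p | qz p.1 x < p.2 + 1} := by
    ext p
    simp only [Set.mem_ofPred_eq, mem_win, Set.mem_inter_iff]
    tauto
  rw [e]
  exact ((MeasurableSet.const _).inter (isClosed_le continuous_snd hc).measurableSet).inter
    (isOpen_lt hc (continuous_snd.add continuous_const)).measurableSet

theorem win_sub (T : ℝ) (A : ℝ × ℝ × ℝ) (s : ℝ) : win T 1 A s ⊆ ball T := by
  intro x hx
  rw [mem_win] at hx
  rw [mem_ball]
  exact hx.1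

open Classical in
/-- number of good quadruples in a window -/
noncomputable def gq (T K : ℝ) (p : (ℝ × ℝ × ℝ) × ℝ) : ℝ :=
  (((Fintype.piFinset fun _ : Fin 4 => win T 1 p.1 p.2).filter (goodQ K K)).card : ℝ)

open Classical in
/-- number of bad triples in a window -/
noncomputable def bt (T K : ℝ) (p : (ℝ × ℝ × ℝ) × ℝ) : ℝ :=
  (((win T 1 p.1 p.2 ×ˢ win T 1 p.1 p.2 ×ˢ win T 1 p.1 p.2).filter
        (fun t => badT K K t.1 t.2.1 t.2.2)).card : ℝ)

theorem gq_nonneg (T K : ℝ) (p : (ℝ × ℝ × ℝ) × ℝ) : 0 ≤ gq T K p := Nat.cast_nonneg _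

theorem bt_nonneg (T K : ℝ) (p : (ℝ × ℝ × ℝ) × ℝ) : 0 ≤ bt T K p := Nat.cast_nonneg _

theorem meas_gq (T K : ℝ) : Measurable fun p => ENNReal.ofReal (gq T K p) := by
  classical
  unfold gq
  refine meas_card (Fintype.piFinset fun _ : Fin 4 => ball T) _ ?_ ?_
  · intro p q hq
    simp only [Finset.mem_filter, Fintype.mem_piFinset] at hq ⊢
    exact fun i => win_sub T _ _ (hq.1 i)
  · intro q _
    have e : {p : (ℝ × ℝ × ℝ) × ℝ | q ∈ (Fintype.piFinset fun _ : Fin 4 =>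
        win T 1 p.1 p.2).filter (goodQ K K)} =
        (⋂ i : Fin 4, {p : (ℝ × ℝ × ℝ) × ℝ | q i ∈ win T 1 p.1 p.2}) ∩ {p | goodQ K K q} := by
      ext p
      simp only [Set.mem_ofPred_eq, Finset.mem_filter, Fintype.mem_piFinset, Set.mem_inter_iff,
        Set.mem_iInter]
    rw [e]
    exact (MeasurableSet.iInter fun i => meas_win T (q i)).inter (MeasurableSet.const _)

theorem meas_bt (T K : ℝ) : Measurable fun p => ENNReal.ofReal (bt T K p) := by
  classical
  unfold bt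
  refine meas_card (ball T ×ˢ ball T ×ˢ ball T) _ ?_ ?_
  · intro p t ht
    simp only [Finset.mem_filter, Finset.mem_product] at ht ⊢
    exact ⟨win_sub T _ _ ht.1.1, win_sub T _ _ ht.1.2.1, win_sub T _ _ ht.1.2.2⟩
  · intro t _
    have e : {p : (ℝ × ℝ × ℝ) × ℝ | t ∈ (win T 1 p.1 p.2 ×ˢ win T 1 p.1 p.2 ×ˢ
        win T 1 p.1 p.2).filter (fun t => badT K K t.1 t.2.1 t.2.2)} =
        ({p : (ℝ × ℝ × ℝ) × ℝ | t.1 ∈ win T 1 p.1 p.2} ∩
          ({p : (ℝ × ℝ × ℝ) × ℝ | t.2.1 ∈ win T 1 p.1 p.2} ∩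
            {p : (ℝ × ℝ × ℝ) × ℝ | t.2.2 ∈ win T 1 p.1 p.2})) ∩
              {p | badT K K t.1 t.2.1 t.2.2} := by
      ext p
      simp only [Set.mem_ofPred_eq, Finset.mem_filter, Finset.mem_product, Set.mem_inter_iff]
    rw [e]
    exact ((meas_win T t.1).inter ((meas_win T t.2.1).inter (meas_win T t.2.2))).inter
      (MeasurableSet.const _)

theorem tsum_geo (c r : ℝ) (hc : 0 ≤ c) (hr : 0 ≤ r) (hr1 : r < 1) :
    ∑' i : ℕ, ENNReal.ofReal (c * r ^ i) = ENNReal.ofReal (c * (1 - r)⁻¹) := by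
  rw [← ENNReal.ofReal_tsum_of_nonneg (fun i => by positivity)
    ((summable_geometric_of_lt_one hr hr1).mul_left c), tsum_mul_left,
    tsum_geometric_of_lt_one hr hr1]

/-- the base of all powers -/
noncomputable def th : ℝ := (2 : ℝ) ^ (1 / 400 : ℝ)

theorem th_pos : 0 < th := Real.rpow_pos_of_pos (by norm_num) _

theorem th_gt_one : 1 < th := Real.one_lt_rpow (by norm_num) (by norm_num)

theorem th_pow : th ^ 400 = 2 := by
  unfold th
  rw [← Real.rpow_natCast, ← Real.rpow_mul (by norm_num)]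
  norm_num

theorem pow_rpow (n : ℕ) : ((2 : ℝ) ^ n) ^ (1 / 400 : ℝ) = th ^ n := by
  unfold th
  rw [Real.rpow_pow_comm (by norm_num)]

/-- the pointwise bound for large counts -/
theorem pointwise (hqs : S_quad_split) (X : Finset (ℤ × ℤ)) (hX : 24 ≤ (X.card : ℝ)) :
    (by
      classical
      exact ∃ i : ℕ, (X.card : ℝ) ^ (3 + 1 / 400 : ℝ) ≤
        2 * th ^ (i + 1) / 2 ^ i *
          (((Fintype.piFinset fun _ : Fin 4 => X).filter
            (goodQ (th ^ (4 * i)) (th ^ (4 * i)))).card : ℝ) +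
        8 * th ^ (i + 1) * (((X ×ˢ X ×ˢ X).filter
            (fun t => badT (th ^ (4 * i)) (th ^ (4 * i)) t.1 t.2.1 t.2.2)).card : ℝ)) := by
  classical
  set R : ℝ := (X.card : ℝ) with hR
  obtain ⟨i, hi1, hi2⟩ := exists_nat_pow_near (by linarith : 1 ≤ R) (by norm_num : (1 : ℝ) < 2)
  refine ⟨i, ?_⟩
  have hK : 1 ≤ th ^ (4 * i) := one_le_pow₀ th_gt_one.le
  have h := hqs X (th ^ (4 * i)) (th ^ (4 * i)) hK hK
  rw [← hR] at h
  set g : ℝ := (((Fintype.piFinset fun _ : Fin 4 => X).filter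
            (goodQ (th ^ (4 * i)) (th ^ (4 * i)))).card : ℝ) with hg
  set b : ℝ := (((X ×ˢ X ×ˢ X).filter
            (fun t => badT (th ^ (4 * i)) (th ^ (4 * i)) t.1 t.2.1 t.2.2)).card : ℝ) with hb
  have h' : R ^ 4 ≤ 12 * R ^ 3 + g + 4 * R * b := h
  have hg0 : 0 ≤ g := Nat.cast_nonneg _
  have hb0 : 0 ≤ b := Nat.cast_nonneg _
  have hR0 : 0 < R := by linarith
  have h1 : R ^ 4 ≤ 2 * g + 8 * R * b := by
    have : 12 * R ^ 3 ≤ R ^ 4 / 2 := by
      have h3 : 0 < R ^ 3 := by positivity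
      nlinarith
    linarith
  have h2 : R ^ 3 ≤ 2 * g / R + 8 * b := by
    have h3 : R ^ 3 * R ≤ (2 * g / R + 8 * b) * R := by
      calc R ^ 3 * R = R ^ 4 := by ring
        _ ≤ 2 * g + 8 * R * b := h1
        _ = (2 * g / R + 8 * b) * R := by field_simp
    exact le_of_mul_le_mul_right h3 hR0
  have h3 : R ^ (1 / 400 : ℝ) ≤ th ^ (i + 1) := by
    rw [← pow_rpow]
    exact Real.rpow_le_rpow hR0.le hi2.le (by norm_num)
  have h4 : 2 * g / R ≤ 2 * g / 2 ^ i :=
    div_le_div_of_nonneg_left (by positivity) (by positivity) hi1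
  have hthp : 0 < th ^ (i + 1) := pow_pos th_pos _
  calc R ^ (3 + 1 / 400 : ℝ) = R ^ 3 * R ^ (1 / 400 : ℝ) := by
        rw [Real.rpow_add hR0]
        norm_num
    _ ≤ (2 * g / 2 ^ i + 8 * b) * th ^ (i + 1) := by
        refine mul_le_mul (by linarith) h3 (by positivity) (by positivity)
    _ = _ := by ring

/-- the window is empty for `s` out of range -/
theorem cnt_zero {M T : ℝ} (hM : 1 ≤ M) {A : ℝ × ℝ × ℝ} (hA : A ∈ KM M) {s : ℝ}
    (hs : ¬ (-1 < s ∧ s ≤ M * T ^ 2)) : cnt T 1 A s = 0 := by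
  have hM0 : 0 < M := by linarith
  unfold cnt
  rw [Nat.cast_eq_zero, Finset.card_eq_zero, Finset.eq_empty_iff_forall_notMem]
  intro x hx
  rw [mem_win] at hx
  obtain ⟨h1, h2, h3⟩ := hx
  have h4 := hA (rc x)
  have h5 : 0 ≤ nr (rc x) / M := div_nonneg (nr_nonneg _) hM0.le
  apply hs
  constructor
  · have : qz A x = qf A (rc x) := rfl
    linarith [h4.1]
  · have e1 : qz A x = qf A (rc x) := rfl
    have e2 : nz x = nr (rc x) := rfl
    have h6 : M * nr (rc x) ≤ M * T ^ 2 := by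
      rw [← e2]
      exact mul_le_mul_of_nonneg_left h1.le hM0.le
    linarith [h4.2]

/-- counts near the origin are bounded -/
theorem cnt_small {M T s0 : ℝ} (hM : 1 ≤ M) {A : ℝ × ℝ × ℝ} (hA : A ∈ KM M) {s : ℝ}
    (hs : s < s0) : cnt T 1 A s ≤ ((ball (M * (|s0| + 1))).card : ℝ) := by
  have hM0 : 0 < M := by linarith
  unfold cnt
  rw [Nat.cast_le]
  apply Finset.card_le_card
  intro x hx
  rw [mem_win] at hx
  obtain ⟨h1, h2, h3⟩ := hx
  have h4 := (hA (rc x)).1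
  have e1 : qz A x = qf A (rc x) := rfl
  have e2 : nz x = nr (rc x) := rfl
  rw [mem_ball, e2]
  rw [div_le_iff₀ hM0] at h4
  have h5 : nr (rc x) < M * (s0 + 1) := by
    have h6 : qf A (rc x) * M < (s0 + 1) * M := mul_lt_mul_of_pos_right (by linarith) hM0
    linarith
  have h7 : M * (s0 + 1) ≤ M * (|s0| + 1) :=
    mul_le_mul_of_nonneg_left (by linarith [le_abs_self s0]) hM0.le
  have h8 : 1 ≤ M * (|s0| + 1) := by nlinarith [abs_nonneg s0]
  nlinarith

theorem vol_KM {M : ℝ} (hM : 1 ≤ M) : volume (KM M) ≤ ENNReal.ofReal ((2 * M) ^ 3) := by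
  have hM0 : 0 < M := by linarith
  have hsub : KM M ⊆ Set.Icc (-M) M ×ˢ (Set.Icc (-M) M ×ˢ Set.Icc (-M) M) := by
    intro A hA
    have h := KM_abs_le hM hA
    simp only [Prod.norm_def, Real.norm_eq_abs, sup_le_iff, abs_le] at h
    exact ⟨⟨h.1.1, h.1.2⟩, ⟨⟨h.2.1.1, h.2.1.2⟩, ⟨h.2.2.1, h.2.2.2⟩⟩⟩
  refine le_trans (measure_mono hsub) ?_
  rw [Measure.volume_eq_prod, Measure.prod_prod, Measure.volume_eq_prod, Measure.prod_prod,
    Real.volume_Icc, ← ENNReal.ofReal_mul (by linarith), ← ENNReal.ofReal_mul (by linarith)]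
  apply ENNReal.ofReal_le_ofReal
  apply le_of_eq
  ring

/-- the `i`-th term -/
noncomputable def tm (T s0 : ℝ) (i : ℕ) (p : (ℝ × ℝ × ℝ) × ℝ) : ℝ≥0∞ :=
  ENNReal.ofReal (2 * th ^ (i + 1) / 2 ^ i) * ENNReal.ofReal (gq T (th ^ (4 * i)) p) +
    ENNReal.ofReal (8 * th ^ (i + 1)) *
      ({p : (ℝ × ℝ × ℝ) × ℝ | s0 ≤ p.2}).indicator
        (fun p => ENNReal.ofReal (bt T (th ^ (4 * i)) p)) p

theorem meas_tm (T s0 : ℝ) (i : ℕ) : Measurable (tm T s0 i) := by
  unfold tm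
  have h1 : MeasurableSet {p : (ℝ × ℝ × ℝ) × ℝ | s0 ≤ p.2} :=
    (isClosed_le continuous_const continuous_snd).measurableSet
  exact ((meas_gq T _).const_mul _).add (((meas_bt T _).indicator h1).const_mul _)

/-- pointwise domination of the integrand -/
theorem dom (hqs : S_quad_split) {M T s0 : ℝ} (hM : 1 ≤ M) {A : ℝ × ℝ × ℝ} (hA : A ∈ KM M)
    (s : ℝ) :
    ENNReal.ofReal (cnt T 1 A s ^ (3 + 1 / 400 : ℝ)) ≤
      (Set.Ioc (-1) (M * T ^ 2)).indicator
        (fun _ => ENNReal.ofReal (max 24 ((ball (M * (|s0| + 1))).card : ℝ) ^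
          (3 + 1 / 400 : ℝ))) s + ∑' i, tm T s0 i (A, s) := by
  classical
  by_cases hr : -1 < s ∧ s ≤ M * T ^ 2
  swap
  · rw [cnt_zero hM hA hr, Real.zero_rpow (by norm_num), ENNReal.ofReal_zero]
    exact zero_le
  rw [Set.indicator_of_mem (show s ∈ Set.Ioc (-1) (M * T ^ 2) from ⟨hr.1, hr.2⟩)]
  have hc0 := cnt_nonneg T 1 A s
  by_cases h24 : cnt T 1 A s ≤ max 24 ((ball (M * (|s0| + 1))).card : ℝ)
  · refine le_trans ?_ le_self_add
    exact ENNReal.ofReal_le_ofReal (Real.rpow_le_rpow hc0 h24 (by norm_num))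
  · refine le_trans ?_ le_add_self
    have hlt := not_le.mp h24
    have h1 : 24 ≤ ((win T 1 A s).card : ℝ) := le_trans (le_max_left _ _) hlt.le
    have h2 : s0 ≤ s := by
      by_contra h3
      have := cnt_small (T := T) hM hA (not_le.mp h3)
      linarith [le_max_right (24 : ℝ) ((ball (M * (|s0| + 1))).card : ℝ)]
    obtain ⟨i, hi⟩ := pointwise hqs (win T 1 A s) h1
    refine le_trans ?_ (ENNReal.le_tsum i)
    have e1 : gq T (th ^ (4 * i)) (A, s) = (((Fintype.piFinset fun _ : Fin 4 =>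
        win T 1 A s).filter (goodQ (th ^ (4 * i)) (th ^ (4 * i)))).card : ℝ) := rfl
    have e2 : bt T (th ^ (4 * i)) (A, s) = (((win T 1 A s ×ˢ win T 1 A s ×ˢ
        win T 1 A s).filter
        (fun t => badT (th ^ (4 * i)) (th ^ (4 * i)) t.1 t.2.1 t.2.2)).card : ℝ) := rfl
    unfold tm
    rw [Set.indicator_of_mem (show (A, s) ∈ {p : (ℝ × ℝ × ℝ) × ℝ | s0 ≤ p.2} from h2)]
    have hthp : 0 < th ^ (i + 1) := pow_pos th_pos _
    rw [← ENNReal.ofReal_mul (by positivity), ← ENNReal.ofReal_mul (by positivity),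
      ← ENNReal.ofReal_add (mul_nonneg (by positivity) (gq_nonneg _ _ _))
        (mul_nonneg (by positivity) (bt_nonneg _ _ _))]
    apply ENNReal.ofReal_le_ofReal
    rw [e1, e2]
    exact hi

/-- integral of one term -/
theorem int_tm (hg : S_int_goodQ) (M : ℝ) (hM : 1 ≤ M) {s0 Cb : ℝ} (hCb : 1 ≤ Cb)
    (hb : ∀ T K D : ℝ, 1 ≤ T → 1 ≤ K → 1 ≤ D →
      ∫⁻ A in KM M, ∫⁻ s in Set.Ici s0, ENNReal.ofReal (bt T K (A, s)) ≤
      ENNReal.ofReal (Cb * T ^ 2 * (1 / Real.sqrt K + 1 / Real.sqrt K))) :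
    ∃ C : ℝ, 1 ≤ C ∧ ∀ T : ℝ, 1 ≤ T → ∀ i : ℕ,
      ∫⁻ A in KM M, ∫⁻ s, tm T s0 i (A, s) ≤
        ENNReal.ofReal (C * T ^ 2 * (th ^ 189 / 2) ^ i) +
          ENNReal.ofReal (C * T ^ 2 * (1 / th) ^ i) := by
  classical
  obtain ⟨Cg, hCg, hgg⟩ := hg M hM
  refine ⟨2 * th * Cg + 16 * th * Cb, ?_, ?_⟩
  · nlinarith [th_gt_one, th_pos]
  intro T hT i
  have hK : 1 ≤ th ^ (4 * i) := one_le_pow₀ th_gt_one.le
  have h1 := hgg T (th ^ (4 * i)) (th ^ (4 * i)) hT hK hK
  have h2 := hb T (th ^ (4 * i)) (th ^ (4 * i)) hT hK hK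
  have hth := th_pos
  have hms : MeasurableSet {p : (ℝ × ℝ × ℝ) × ℝ | s0 ≤ p.2} :=
    (isClosed_le continuous_const continuous_snd).measurableSet
  -- split
  have hmi : Measurable (({p : (ℝ × ℝ × ℝ) × ℝ | s0 ≤ p.2}).indicator
        (fun p => ENNReal.ofReal (bt T (th ^ (4 * i)) p))) := (meas_bt T _).indicator hms
  have e1 : ∀ A : ℝ × ℝ × ℝ, ∫⁻ s, tm T s0 i (A, s) =
      ENNReal.ofReal (2 * th ^ (i + 1) / 2 ^ i) *
        (∫⁻ s, ENNReal.ofReal (gq T (th ^ (4 * i)) (A, s))) +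
      ENNReal.ofReal (8 * th ^ (i + 1)) *
        (∫⁻ s in Set.Ici s0, ENNReal.ofReal (bt T (th ^ (4 * i)) (A, s))) := by
    intro A
    unfold tm
    have m1 : Measurable fun s : ℝ => ENNReal.ofReal (gq T (th ^ (4 * i)) (A, s)) :=
      (meas_gq T _).comp measurable_prodMk_left
    have m2 : Measurable fun s : ℝ => ({p : (ℝ × ℝ × ℝ) × ℝ | s0 ≤ p.2}).indicator
        (fun p => ENNReal.ofReal (bt T (th ^ (4 * i)) p)) (A, s) :=
      hmi.comp measurable_prodMk_left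
    rw [lintegral_add_left (m1.const_mul _), lintegral_const_mul _ m1, lintegral_const_mul _ m2]
    congr 2
    rw [← lintegral_indicator measurableSet_Ici]
    apply lintegral_congr
    intro s
    by_cases h : s0 ≤ s
    · rw [Set.indicator_of_mem (show (A, s) ∈ {p : (ℝ × ℝ × ℝ) × ℝ | s0 ≤ p.2} from h),
        Set.indicator_of_mem (show s ∈ Set.Ici s0 from h)]
    · rw [Set.indicator_of_notMem (show (A, s) ∉ {p : (ℝ × ℝ × ℝ) × ℝ | s0 ≤ p.2} from h),
        Set.indicator_of_notMem (show s ∉ Set.Ici s0 from h)]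
  have m3 : Measurable fun A : ℝ × ℝ × ℝ =>
      ∫⁻ s, ENNReal.ofReal (gq T (th ^ (4 * i)) (A, s)) :=
    (meas_gq T _).lintegral_prod_right'
  have m4 : Measurable fun A : ℝ × ℝ × ℝ =>
      ∫⁻ s in Set.Ici s0, ENNReal.ofReal (bt T (th ^ (4 * i)) (A, s)) :=
    (meas_bt T _).lintegral_prod_right'
  simp_rw [e1]
  rw [lintegral_add_left (m3.const_mul _), lintegral_const_mul _ m3, lintegral_const_mul _ m4]
  refine add_le_add ?_ ?_
  · refine le_trans (mul_le_mul_right (a := ENNReal.ofReal (2 * th ^ (i + 1) / 2 ^ i)) h1) ?_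
    rw [← ENNReal.ofReal_mul (by positivity)]
    apply ENNReal.ofReal_le_ofReal
    have e2 : 2 * th ^ (i + 1) / 2 ^ i * (Cg * (th ^ (4 * i)) ^ 45 * (th ^ (4 * i)) ^ 2 * T ^ 2) =
        (2 * th * Cg) * T ^ 2 * (th ^ 189 / 2) ^ i := by
      rw [div_pow, ← pow_mul, ← pow_mul, ← pow_mul]
      have e3 : th ^ (189 * i) = th ^ i * (th ^ (4 * i * 45) * th ^ (4 * i * 2)) := by
        rw [← pow_add, ← pow_add]
        congr 1
        ring
      rw [e3, pow_succ]
      field_simp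
    rw [e2]
    have : 0 ≤ T ^ 2 * (th ^ 189 / 2) ^ i := by positivity
    have h3 : 2 * th * Cg ≤ 2 * th * Cg + 16 * th * Cb := by
      have : 0 ≤ 16 * th * Cb := by positivity
      linarith
    calc (2 * th * Cg) * T ^ 2 * (th ^ 189 / 2) ^ i
        = (2 * th * Cg) * (T ^ 2 * (th ^ 189 / 2) ^ i) := by ring
      _ ≤ (2 * th * Cg + 16 * th * Cb) * (T ^ 2 * (th ^ 189 / 2) ^ i) :=
        mul_le_mul_of_nonneg_right h3 this
      _ = _ := by ring
  · refine le_trans (mul_le_mul_right (a := ENNReal.ofReal (8 * th ^ (i + 1))) h2) ?_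
    rw [← ENNReal.ofReal_mul (by positivity)]
    apply ENNReal.ofReal_le_ofReal
    have e4 : Real.sqrt (th ^ (4 * i)) = th ^ (2 * i) := by
      rw [show th ^ (4 * i) = (th ^ (2 * i)) ^ 2 by rw [← pow_mul]; congr 1; ring]
      exact Real.sqrt_sq (by positivity)
    have e2 : 8 * th ^ (i + 1) * (Cb * T ^ 2 * (1 / Real.sqrt (th ^ (4 * i)) +
        1 / Real.sqrt (th ^ (4 * i)))) = (16 * th * Cb) * T ^ 2 * (1 / th) ^ i := by
      rw [e4, one_div_pow, show th ^ (2 * i) = th ^ i * th ^ i by rw [← pow_add]; congr 1; ring,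
        pow_succ]
      field_simp
      ring
    rw [e2]
    have : 0 ≤ T ^ 2 * (1 / th) ^ i := by positivity
    have h3 : 16 * th * Cb ≤ 2 * th * Cg + 16 * th * Cb := by
      have : 0 ≤ 2 * th * Cg := by positivity
      linarith
    calc (16 * th * Cb) * T ^ 2 * (1 / th) ^ i
        = (16 * th * Cb) * (T ^ 2 * (1 / th) ^ i) := by ring
      _ ≤ (2 * th * Cg + 16 * th * Cb) * (T ^ 2 * (1 / th) ^ i) :=
        mul_le_mul_of_nonneg_right h3 this
      _ = _ := by ring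

/-- UI -/
theorem UI (hqs : S_quad_split) (hg : S_int_goodQ) (hb : S_int_badT) : S_UI := by
  classical
  refine ⟨1 / 400, by norm_num, by norm_num, ?_⟩
  intro M hM
  have hM0 : 0 < M := by linarith
  obtain ⟨s0, Cb, hs0, hCb, hb⟩ := hb M hM
  obtain ⟨C, hC, hC2⟩ := int_tm hg M hM (s0 := s0) hCb (fun T K D hT hK hD => by
    have := hb T K K hT hK hK
    exact this)
  set c2 : ℝ := max 24 ((ball (M * (|s0| + 1))).card : ℝ) ^ (3 + 1 / 400 : ℝ) with hc2
  have hc20 : 0 ≤ c2 := by positivity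
  have hr1 : th ^ 189 / 2 < 1 := by
    rw [div_lt_one (by norm_num), ← th_pow]
    exact pow_lt_pow_right₀ th_gt_one (by norm_num)
  have hr2 : 1 / th < 1 := by
    rw [div_lt_one th_pos]; exact th_gt_one
  have hth := th_pos
  have hg1 : 0 < 1 - th ^ 189 / 2 := by linarith
  have hg2 : 0 < 1 - 1 / th := by linarith
  refine ⟨c2 * (M + 1) * (2 * M) ^ 3 + C * (1 - th ^ 189 / 2)⁻¹ + C * (1 - 1 / th)⁻¹, ?_, ?_⟩
  · have h1 : 1 ≤ (1 - th ^ 189 / 2)⁻¹ := by
      rw [one_le_inv₀ hg1]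
      have : 0 ≤ th ^ 189 / 2 := by positivity
      linarith
    have h2 : 1 ≤ C * (1 - th ^ 189 / 2)⁻¹ := by nlinarith
    have h3 : 0 ≤ c2 * (M + 1) * (2 * M) ^ 3 := by positivity
    have h4 : 0 ≤ C * (1 - 1 / th)⁻¹ := by positivity
    linarith
  intro T hT
  have hT2 : 1 ≤ T ^ 2 := one_le_pow₀ hT
  calc ∫⁻ A in KM M, ∫⁻ s, ENNReal.ofReal (cnt T 1 A s ^ (3 + 1 / 400 : ℝ))
      ≤ ∫⁻ A in KM M, (ENNReal.ofReal (c2 * (M * T ^ 2 + 1)) +
          ∑' i, ∫⁻ s, tm T s0 i (A, s)) := by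
        refine setLIntegral_mono' (measurableSet_KM M) ?_
        intro A hA
        calc ∫⁻ s, ENNReal.ofReal (cnt T 1 A s ^ (3 + 1 / 400 : ℝ))
            ≤ ∫⁻ s, ((Set.Ioc (-1) (M * T ^ 2)).indicator (fun _ => ENNReal.ofReal c2) s +
                ∑' i, tm T s0 i (A, s)) := lintegral_mono fun s => dom hqs hM hA s
          _ = ENNReal.ofReal (c2 * (M * T ^ 2 + 1)) + ∑' i, ∫⁻ s, tm T s0 i (A, s) := by
            rw [lintegral_add_left (measurable_const.indicator measurableSet_Ioc),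
              lintegral_indicator measurableSet_Ioc, setLIntegral_const, Real.volume_Ioc,
              ← ENNReal.ofReal_mul hc20, sub_neg_eq_add, lintegral_tsum]
            intro i
            exact ((meas_tm T s0 i).comp measurable_prodMk_left).aemeasurable
    _ = (ENNReal.ofReal (c2 * (M * T ^ 2 + 1)) * volume (KM M) +
          ∑' i, ∫⁻ A in KM M, ∫⁻ s, tm T s0 i (A, s)) := by
        rw [lintegral_add_left measurable_const, setLIntegral_const, lintegral_tsum]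
        intro i
        exact ((meas_tm T s0 i).lintegral_prod_right').aemeasurable
    _ ≤ ENNReal.ofReal (c2 * (M * T ^ 2 + 1)) * ENNReal.ofReal ((2 * M) ^ 3) +
          ∑' i : ℕ, (ENNReal.ofReal (C * T ^ 2 * (th ^ 189 / 2) ^ i) +
            ENNReal.ofReal (C * T ^ 2 * (1 / th) ^ i)) := by
        refine add_le_add ?_ ?_
        · exact mul_le_mul_right (vol_KM hM) _
        · exact ENNReal.tsum_le_tsum fun i => hC2 T hT i
    _ = ENNReal.ofReal (c2 * (M * T ^ 2 + 1) * (2 * M) ^ 3 +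
          (C * T ^ 2 * (1 - th ^ 189 / 2)⁻¹ + C * T ^ 2 * (1 - 1 / th)⁻¹)) := by
        rw [ENNReal.tsum_add, tsum_geo _ _ (by positivity) (by positivity) hr1,
          tsum_geo _ _ (by positivity) (by positivity) hr2,
          ← ENNReal.ofReal_mul (by positivity), ← ENNReal.ofReal_add (by positivity) (by positivity),
          ← ENNReal.ofReal_add (by positivity) (by positivity)]
    _ ≤ _ := by
        apply ENNReal.ofReal_le_ofReal
        have h5 : c2 * (M * T ^ 2 + 1) * (2 * M) ^ 3 ≤ c2 * ((M + 1) * T ^ 2) * (2 * M) ^ 3 := by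
          have : M * T ^ 2 + 1 ≤ (M + 1) * T ^ 2 := by linarith
          gcongr
        calc c2 * (M * T ^ 2 + 1) * (2 * M) ^ 3 +
              (C * T ^ 2 * (1 - th ^ 189 / 2)⁻¹ + C * T ^ 2 * (1 - 1 / th)⁻¹)
            ≤ c2 * ((M + 1) * T ^ 2) * (2 * M) ^ 3 +
              (C * T ^ 2 * (1 - th ^ 189 / 2)⁻¹ + C * T ^ 2 * (1 - 1 / th)⁻¹) := by linarith
          _ = _ := by ring

end Pool.Agent.BTL.H37
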